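import Pool.Agent.C4U.Stmts
import Pool.Agent.Helper69_C4F.Fld
import Pool.Agent.Helper77_C4F.SUB

/-!
# Squad C4U (MP_be2f05_lc), row SPL: from five words to one word
-/

set_option autoImplicit false

namespace Pool.Agent.C4U.H82

open Pool.Agent.C4F (Lt)
open Pool.Agent.C4F.H69 (gF hF gF_gen hF_gen gF_eq hF_eq comp1)
open Pool.Agent.Helper53_CookLevin (PGen)
open Pool.Agent.Helper53_Chan (Test)

/-- the five parts of a word -/
def parts (z : List Lt) : Fin 5 → List Lt :=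
  ![gF z, gF (hF z), gF (hF (hF z)), gF (hF (hF (hF z))), hF (hF (hF (hF z)))]

theorem parts_gen : ∀ i : Fin 5, PGen 1 (fun ρ : Fin 1 → List Lt => parts (ρ 0) i) := by
  have h0 := Pool.Agent.Helper53_Chan.PGen.var (C := Lt) (0 : Fin 1)
  have h1 := comp1 hF_gen h0
  have h2 := comp1 hF_gen h1
  have h3 := comp1 hF_gen h2
  have h4 := comp1 hF_gen h3
  have k1 := comp1 gF_gen h1
  have k2 := comp1 gF_gen h2
  have k3 := comp1 gF_gen h3
  intro i
  match i with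
  | 0 => exact gF_gen
  | 1 => exact k1
  | 2 => exact k2
  | 3 => exact k3
  | 4 => exact h4

theorem parts_eq {w : Fin 5 → List Lt} (hw : NoBar w) : parts (jn w) = w := by
  have h0 : Lt.bar ∉ w 0 := hw 0 (by decide)
  have h1 : Lt.bar ∉ w 1 := hw 1 (by decide)
  have h2 : Lt.bar ∉ w 2 := hw 2 (by decide)
  have h3 : Lt.bar ∉ w 3 := hw 3 (by decide)
  unfold parts jn
  rw [gF_eq h0, hF_eq h0, gF_eq h1, hF_eq h1, gF_eq h2, hF_eq h2, gF_eq h3, hF_eq h3]
  funext i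
  fin_cases i <;> rfl

/-- the first part of row SPL -/
theorem spl1 (Φ : (Fin 5 → List Lt) → List Lt) (hΦ : PGen 5 Φ) :
    PGen 1 (fun ρ : Fin 1 → List Lt => Φ (parts (ρ 0))) :=
  Pool.Agent.C4F.H77.sub 5 1 Φ (fun i ρ => parts (ρ 0) i) hΦ parts_gen

/-- row SPL -/
theorem spl : SplStmt := by
  refine ⟨fun Φ hΦ => ⟨fun z => Φ (parts z), spl1 Φ hΦ, fun w hw => ?_⟩, fun P hP => ?_⟩
  · show Φ (parts (jn w)) = Φ w
    rw [parts_eq hw]
  · obtain ⟨T, hT, h⟩ := hP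
    refine ⟨fun z => P (parts z), ⟨fun ρ => T (parts (ρ 0)), spl1 T hT, fun ρ => h _⟩,
      fun w hw => ?_⟩
    show P (parts (jn w)) ↔ P w
    rw [parts_eq hw]

end Pool.Agent.C4U.H82
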